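import Pool.Agent.Run7.h706.StrongD

set_option autoImplicit false

/-!
# A strong d-space whose square is not a strong d-space

The space `Z` consists of a chain `c 0 < c 1 < ...` with a top element `t`, of infinitely many
maximal points `m n` and of two points `e`, `e'` below all `m n`; a set is open if it is an upper
set which with `t` contains some `c k`. A directed subset of `Z` without a greatest element is an
unbounded subset of the chain, so `Z` is a strong d-space. In `Z × Z` let `D` be the set of all
`(c k, e)` and let `x = (c 0, e')`. The intersection of `↑x` and all `↑d` is the set of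
all `(t, m n)`, and it is contained in the open union `U` of all `↑(c n) × {m n}`. But `↑x ∩ ↑(c k, e)`
contains `(c k, m (k + 1))`, which is not in `U`.
-/

namespace Pool.Agent.Results.MP_e2e219_gt.SquareOfStrongDSpace

open Set

/-- `up x`: the set of all `y` with `x` in the closure of `y`. -/
def up {X : Type*} [TopologicalSpace X] (x : X) : Set X := {y | x ∈ closure {y}}

/-- Strong d-spaces. -/
def IsStrongDSpace (X : Type*) [TopologicalSpace X] : Prop :=
  T0Space X ∧ ∀ D : Set X, D.Nonempty → DirectedOn (fun a b => a ∈ closure {b}) D →
    ∀ (x : X) (U : Set X), IsOpen U → (⋂ d ∈ D, up d) ∩ up x ⊆ U → ∃ d ∈ D, up d ∩ up x ⊆ U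

/-- There is a countable strong d-space `Z` such that `Z × Z` is not a strong d-space; nor is the
product of the family, indexed by the two elements of `Bool`, whose members are both `Z`. -/
theorem result : ∃ (Z : Type) (_ : TopologicalSpace Z), Countable Z ∧ IsStrongDSpace Z ∧
    ¬ IsStrongDSpace (Z × Z) ∧ ¬ IsStrongDSpace (Bool → Z) :=
  ⟨Run7.h706.StrongD.Z, inferInstance, inferInstance, Run7.h706.StrongD.Z.isStrongDSpace,
    Run7.h706.StrongD.not_isStrongDSpace_prod, Run7.h706.StrongD.not_isStrongDSpace⟩

end Pool.Agent.Results.MP_e2e219_gt.SquareOfStrongDSpace
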